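import Pool.Agent.Helper3.WA.St.Stubs

set_option autoImplicit false

namespace Pool.Agent.Helper7.WA

open Finset
open Pool.Agent.Helper3.WA

variable (σ : SysA)

lemma W_succ (k : ℕ) : σ.W (k + 1) = σ.W k * (2 * σ.p k) ^ (2 * σ.M k) := by
  unfold SysA.W
  rw [prod_range_succ]

lemma W_dvd {j k : ℕ} (h : j ≤ k) : σ.W j ∣ σ.W k := by
  induction k, h using Nat.le_induction with
  | base => exact dvd_rfl
  | succ k _ ih =>
    rw [W_succ]
    exact Dvd.dvd.mul_right ih _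

lemma W_le {j k : ℕ} (h : j ≤ k) : σ.W j ≤ σ.W k :=
  Nat.le_of_dvd (St.W_pos σ k) (W_dvd σ h)

lemma four_le (k : ℕ) : 4 * σ.M k * σ.β k ≤ 2 * σ.p k := by
  have h := (σ.comp k).lab_le
  have e : 4 * σ.M k * σ.β k = 2 * (2 * σ.M k * σ.β k) := by ring
  omega

lemma Q_pos (k : ℕ) : 0 < 2 * σ.p k := by
  have h := four_le σ k
  have h1 := (σ.comp k).two_le
  have h2 := (σ.comp k).beta_pos
  have h3 : 0 < 4 * σ.M k * σ.β k := by positivity
  omega

lemma low_split (k : ℕ) : ∀ l ∈ σ.Low k, ∀ j, j < k → ∃ l0 ∈ σ.Low j, ∃ t ∈ σ.T j, ∃ r,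
    l = l0 + σ.W j * t + σ.W (j + 1) * r := by
  induction k with
  | zero => intro l _ j hj; omega
  | succ k ih =>
    intro l hl j hj
    obtain ⟨l', hl', t, ht, rfl⟩ := hl
    rcases Nat.lt_or_ge j k with h | h
    · obtain ⟨l0, hl0, t0, ht0, r, hr⟩ := ih l' hl' j h
      obtain ⟨c, hc⟩ := W_dvd σ (j := j + 1) (k := k) h
      refine ⟨l0, hl0, t0, ht0, r + c * t, ?_⟩
      rw [hr, hc]
      ring
    · have : j = k := by omega
      subst this
      exact ⟨l', hl', t, ht, 0, by ring⟩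

lemma top_le {k k' N N' : ℕ} (hkN : k' < k ∨ (k' = k ∧ N' ≤ N))
    (hN : N < σ.M k) (hN' : N' < σ.M k') {a b : ℕ} (ha : a ∈ σ.Part k N)
    (hb : b ∈ σ.Part k' N') : a + b < σ.W k * (2 * σ.p k) ^ (2 * (N + 1)) ∧
      σ.W k * (2 * σ.p k) ^ (2 * N) ≤ a + b := by
  have h1 := St.part_lt σ hN a ha
  have h3 := St.part_ge σ hN a ha
  have hQ := Q_pos σ k
  have h4 : 2 * b < σ.W k * (2 * σ.p k) ^ (2 * (N + 1)) ∨ 2 * b < σ.W k := by
    rcases hkN with h | ⟨h, hle⟩
    · right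
      exact St.part_lt_W σ hN' h b hb
    · subst h
      left
      refine lt_of_lt_of_le (St.part_lt σ hN' b hb) ?_
      exact Nat.mul_le_mul_left _ (Nat.pow_le_pow_right hQ (by omega))
  have h5 : σ.W k ≤ σ.W k * (2 * σ.p k) ^ (2 * (N + 1)) :=
    Nat.le_mul_of_pos_right _ (by positivity)
  refine ⟨?_, by omega⟩
  rcases h4 with h4 | h4 <;> omega

lemma top_lt {k l N O : ℕ} (hN : N < σ.M k) (h : k < l ∨ (k = l ∧ N < O)) :
    σ.W k * (2 * σ.p k) ^ (2 * (N + 1)) ≤ σ.W l * (2 * σ.p l) ^ (2 * O) := by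
  have hQ := Q_pos σ k
  have hQl := Q_pos σ l
  rcases h with h | ⟨h, h'⟩
  · calc σ.W k * (2 * σ.p k) ^ (2 * (N + 1)) ≤ σ.W k * (2 * σ.p k) ^ (2 * σ.M k) :=
          Nat.mul_le_mul_left _ (Nat.pow_le_pow_right hQ (by omega))
      _ = σ.W (k + 1) := (W_succ σ k).symm
      _ ≤ σ.W l := W_le σ h
      _ ≤ _ := Nat.le_mul_of_pos_right _ (by positivity)
  · subst h
    exact Nat.mul_le_mul_left _ (Nat.pow_le_pow_right hQ (by omega))

/-- WA-19: the type of the larger summand is determined by the sum -/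
theorem top_unique {k k' N N' l l' O O' : ℕ} (hkN : k' < k ∨ (k' = k ∧ N' ≤ N))
    (hN : N < σ.M k) (hN' : N' < σ.M k') (hlO : l' < l ∨ (l' = l ∧ O' ≤ O))
    (hO : O < σ.M l) (hO' : O' < σ.M l')
    {a b a2 b2 : ℕ} (ha : a ∈ σ.Part k N) (hb : b ∈ σ.Part k' N') (ha2 : a2 ∈ σ.Part l O)
    (hb2 : b2 ∈ σ.Part l' O') (h : a + b = a2 + b2) : k = l ∧ N = O := by
  obtain ⟨t1, t2⟩ := top_le σ hkN hN hN' ha hb
  obtain ⟨t3, t4⟩ := top_le σ hlO hO hO' ha2 hb2
  by_contra hne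
  have hcases : (k < l ∨ (k = l ∧ N < O)) ∨ (l < k ∨ (l = k ∧ O < N)) := by
    rcases Nat.lt_trichotomy k l with h' | h' | h'
    · exact Or.inl (Or.inl h')
    · rcases Nat.lt_trichotomy N O with h'' | h'' | h''
      · exact Or.inl (Or.inr ⟨h', h''⟩)
      · exact absurd ⟨h', h''⟩ hne
      · exact Or.inr (Or.inr ⟨h'.symm, h''⟩)
    · exact Or.inr (Or.inl h')
  rcases hcases with h' | h'
  · have := top_lt σ hN h'
    omega
  · have := top_lt σ hO h'
    omega

/-- disjointness of the label intervals -/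
lemma lab_eq {β x N O : ℕ} (h1 : 2 * N * β ≤ x) (h2 : x < 2 * N * β + 2 * β)
    (h3 : 2 * O * β ≤ x) (h4 : x < 2 * O * β + 2 * β) : N = O := by
  rcases Nat.lt_trichotomy N O with h | h | h
  · exfalso
    have : 2 * (N + 1) * β ≤ 2 * O * β := Nat.mul_le_mul_right _ (by omega)
    have e : 2 * (N + 1) * β = 2 * N * β + 2 * β := by ring
    omega
  · exact h
  · exfalso
    have : 2 * (O + 1) * β ≤ 2 * N * β := Nat.mul_le_mul_right _ (by omega)
    have e : 2 * (O + 1) * β = 2 * O * β + 2 * β := by ring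
    omega

/-- WA-19: given the component of the smaller summand, its length is determined unless it is `0` -/
theorem label_unique {k k' N N' O' : ℕ} (hkN : k' < k ∨ (k' = k ∧ N' ≤ N))
    (hkO : k' < k ∨ (k' = k ∧ O' ≤ N))
    (hN : N < σ.M k) (h1 : 1 ≤ N') (hN' : N' < σ.M k') (h1' : 1 ≤ O') (hO' : O' < σ.M k')
    {a b a2 b2 : ℕ} (ha : a ∈ σ.Part k N) (hb : b ∈ σ.Part k' N') (ha2 : a2 ∈ σ.Part k N)
    (hb2 : b2 ∈ σ.Part k' O') (h : a + b = a2 + b2) : N' = O' := by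
  have hW := St.W_pos σ k
  have hQ4 := four_le σ k'
  obtain ⟨la, hla, s, hs, rfl⟩ := ha
  obtain ⟨la2, hla2, s2, hs2, rfl⟩ := ha2
  have hla' := St.low_lt σ k la hla
  have hla2' := St.low_lt σ k la2 hla2
  -- sums of labels
  have small : ∀ n m x y : ℕ, n < σ.M k' → m < σ.M k' → x < 2 * n * σ.β k' + σ.β k' →
      y < 2 * m * σ.β k' + σ.β k' → x + y < 2 * σ.p k' := by
    intro n m x y hn hm hx hy
    have e1 : (2 * n + 2 * m + 2) * σ.β k' ≤ (4 * σ.M k') * σ.β k' :=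
      Nat.mul_le_mul_right _ (by omega)
    have e2 : (2 * n + 2 * m + 2) * σ.β k' = 2 * n * σ.β k' + σ.β k' + (2 * m * σ.β k' + σ.β k') := by
      ring
    omega
  by_cases hk1 : k' = k
  · subst hk1
    obtain ⟨lb, hlb, s', hs', rfl⟩ := hb
    obtain ⟨lb2, hlb2, s2', hs2', rfl⟩ := hb2
    have hlb' := St.low_lt σ k' lb hlb
    have hlb2' := St.low_lt σ k' lb2 hlb2
    have hNN : N' ≤ N := by omega
    obtain ⟨p1, p2⟩ := (σ.comp k').S_lab N (by omega) hN s hs
    obtain ⟨p3, p4⟩ := (σ.comp k').S_lab N (by omega) hN s2 hs2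
    obtain ⟨p5, p6⟩ := (σ.comp k').S_lab N' h1 hN' s' hs'
    obtain ⟨p7, p8⟩ := (σ.comp k').S_lab O' h1' hO' s2' hs2'
    have hq : ∀ x u v : ℕ, x < σ.W k' → u = x + σ.W k' * v → u / σ.W k' = v := by
      intro x u v hx hu
      rw [hu, Nat.add_mul_div_left _ _ hW, Nat.div_eq_of_lt hx, zero_add]
    have q1 : (la + σ.W k' * s + (lb + σ.W k' * s')) / σ.W k' = s + s' :=
      hq (la + lb) _ _ (by omega) (by ring)
    have q2 : (la2 + σ.W k' * s2 + (lb2 + σ.W k' * s2')) / σ.W k' = s2 + s2' :=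
      hq (la2 + lb2) _ _ (by omega) (by ring)
    rw [h, q2] at q1
    have e1 : (s + s') % (2 * σ.p k') = s % (2 * σ.p k') + s' % (2 * σ.p k') := by
      rw [Nat.add_mod, Nat.mod_eq_of_lt (small N N' _ _ hN hN' p2 p6)]
    have e2 : (s2 + s2') % (2 * σ.p k') = s2 % (2 * σ.p k') + s2' % (2 * σ.p k') := by
      rw [Nat.add_mod, Nat.mod_eq_of_lt (small N O' _ _ hN hO' p4 p8)]
    rw [q1, e1] at e2
    have key := lab_eq (β := σ.β k') (x := s % (2 * σ.p k') + s' % (2 * σ.p k'))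
      (N := N + N') (O := N + O')
      (by have e : 2 * (N + N') * σ.β k' = 2 * N * σ.β k' + 2 * N' * σ.β k' := by ring
          omega)
      (by have e : 2 * (N + N') * σ.β k' = 2 * N * σ.β k' + 2 * N' * σ.β k' := by ring
          omega)
      (by have e : 2 * (N + O') * σ.β k' = 2 * N * σ.β k' + 2 * O' * σ.β k' := by ring
          omega)
      (by have e : 2 * (N + O') * σ.β k' = 2 * N * σ.β k' + 2 * O' * σ.β k' := by ring
          omega)
    omega
  · have hlt : k' < k := by omega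
    have hb' := St.part_lt_W σ hN' hlt b hb
    have hb2' := St.part_lt_W σ hO' hlt b2 hb2
    have m1 : (la + σ.W k * s + b) % σ.W k = la + b := by
      rw [show la + σ.W k * s + b = la + b + σ.W k * s by ring, Nat.add_mul_mod_self_left,
        Nat.mod_eq_of_lt (by omega)]
    have m2 : (la2 + σ.W k * s2 + b2) % σ.W k = la2 + b2 := by
      rw [show la2 + σ.W k * s2 + b2 = la2 + b2 + σ.W k * s2 by ring, Nat.add_mul_mod_self_left,
        Nat.mod_eq_of_lt (by omega)]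
    rw [h, m2] at m1
    have hWk := St.W_pos σ k'
    have hM2 := (σ.comp k').two_le
    -- the label in the component `k'`
    have lab : ∀ l b n, l ∈ σ.Low k → b ∈ σ.Part k' n → 1 ≤ n → n < σ.M k' →
        2 * n * σ.β k' ≤ ((l + b) / σ.W k') % (2 * σ.p k') ∧
        ((l + b) / σ.W k') % (2 * σ.p k') < 2 * n * σ.β k' + 2 * σ.β k' := by
      intro l b n hl hb hn1 hn
      obtain ⟨l0, hl0, t, ht, r, hr⟩ := low_split σ k l hl k' hlt
      obtain ⟨lb, hlb, s', hs', rfl⟩ := hb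
      have hl0' := St.low_lt σ k' l0 hl0
      have hlb' := St.low_lt σ k' lb hlb
      have htl := (σ.comp k').T_lab t ht
      obtain ⟨p5, p6⟩ := (σ.comp k').S_lab n hn1 hn s' hs'
      obtain ⟨e, he⟩ : (2 * σ.p k') ∣ (2 * σ.p k') ^ (2 * σ.M k') :=
        dvd_pow_self _ (by omega)
      have e3 : (l + (lb + σ.W k' * s')) / σ.W k' = t + s' + (2 * σ.p k') * (e * r) := by
        have : l + (lb + σ.W k' * s') =
            (l0 + lb) + σ.W k' * (t + s' + (2 * σ.p k') * (e * r)) := by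
          rw [hr, W_succ, he]
          ring
        rw [this, Nat.add_mul_div_left _ _ hWk, Nat.div_eq_of_lt (by omega), zero_add]
      rw [e3, Nat.add_mul_mod_self_left, Nat.add_mod,
        Nat.mod_eq_of_lt (small 0 n _ _ (by omega) hn (by omega) p6)]
      omega
    obtain ⟨a1, a2⟩ := lab la b N' hla hb h1 hN'
    obtain ⟨a3, a4⟩ := lab la2 b2 O' hla2 hb2 h1' hO'
    rw [m1] at a3 a4
    exact lab_eq a1 a2 a3 a4

end Pool.Agent.Helper7.WA
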